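import Pool.Agent.Helper35.EC.Geom

/-! EC-T6a: abstract atomic condition from certificates. -/

set_option autoImplicit false
set_option linter.deprecated false

namespace EC

open Matrix
open scoped Matrix.Norms.Elementwise

namespace AC

/-- the face of a convex hull on which a nonnegative functional vanishes -/
theorem face_mem {E : Type*} [AddCommGroup E] [Module ℝ E] {G : Set E} (φ : E →ₗ[ℝ] ℝ)
    (hφ : ∀ g ∈ G, 0 ≤ φ g) {M : E} (hM : M ∈ convexHull ℝ G) (h0 : φ M = 0) :
    M ∈ convexHull ℝ (G ∩ {g | φ g = 0}) := by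
  classical
  rw [_root_.convexHull_eq] at hM
  obtain ⟨ι, t, w, z, hw, hw1, hz, rfl⟩ := hM
  have hsum : φ (t.centerMass w z) = ∑ i ∈ t, w i * φ (z i) := by
    rw [Finset.centerMass_eq_of_sum_1 _ _ hw1, map_sum]
    simp
  rw [hsum] at h0
  have hz0 : ∀ i ∈ t, w i * φ (z i) = 0 := by
    rw [Finset.sum_eq_zero_iff_of_nonneg (fun i hi => mul_nonneg (hw i hi) (hφ _ (hz i hi)))] at h0
    exact h0
  rw [← Finset.centerMass_filter_ne_zero]
  refine Finset.centerMass_mem_convexHull _ ?_ ?_ ?_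
  · intro i hi
    exact hw i (Finset.mem_filter.1 hi).1
  · rw [Finset.sum_filter_ne_zero, hw1]; exact one_pos
  · intro i hi
    obtain ⟨hi1, hi2⟩ := Finset.mem_filter.1 hi
    refine ⟨hz i hi1, ?_⟩
    have := hz0 i hi1
    rcases mul_eq_zero.1 this with h | h
    · exact absurd h hi2
    · exact h

theorem exists_submodule {E : Type*} [AddCommGroup E] [Module ℝ E] [FiniteDimensional ℝ E]
    (k : ℕ) (hk : k ≤ Module.finrank ℝ E) (U : Submodule ℝ E) (hU : Module.finrank ℝ U ≤ k) :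
    ∃ W : Submodule ℝ E, U ≤ W ∧ Module.finrank ℝ W = k := by
  induction hd : k - Module.finrank ℝ U generalizing U with
  | zero => exact ⟨U, le_rfl, by omega⟩
  | succ d ih =>
    have hlt : Module.finrank ℝ U < Module.finrank ℝ E := by omega
    have hne : U ≠ ⊤ := by
      rintro rfl
      rw [finrank_top] at hlt
      exact lt_irrefl _ hlt
    obtain ⟨x, hx⟩ : ∃ x, x ∉ U := by
      by_contra h
      push Not at h
      exact hne (eq_top_iff.2 fun y _ => h y)
    have h1 : U < U ⊔ Submodule.span ℝ {x} := by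
      refine lt_of_le_of_ne le_sup_left fun h => hx ?_
      rw [h]
      exact Submodule.mem_sup_right (Submodule.mem_span_singleton_self x)
    have h2 := Submodule.finrank_lt_finrank_of_lt h1
    have h3 : Module.finrank ℝ ↥(U ⊔ Submodule.span ℝ {x}) ≤ Module.finrank ℝ U + 1 := by
      refine (Submodule.finrank_add_le_finrank_add_finrank _ _).trans ?_
      gcongr
      have := finrank_span_le_card (R := ℝ) ({x} : Set E)
      simpa using this
    obtain ⟨W, hW1, hW2⟩ := ih (U ⊔ Submodule.span ℝ {x}) (by omega) (by omega)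
    exact ⟨W, le_trans le_sup_left hW1, hW2⟩

theorem exists_Gr {n k : ℕ} (hk : k ≤ n) (M : Matrix (Fin n) (Fin n) ℝ) (hM : M.rank ≤ k) :
    ∃ S ∈ Gr n k, M * (1 - S) = 0 := by
  classical
  have hUr : Module.finrank ℝ (LinearMap.range (toEuclideanLin Mᵀ)) = M.rank := by
    rw [toEuclideanLin_eq_toLin, ← Matrix.rank_eq_finrank_range_toLin, Matrix.rank_transpose]
  obtain ⟨W, hUW, hW⟩ := exists_submodule (E := EuclideanSpace ℝ (Fin n)) k (by simpa using hk)
    (LinearMap.range (toEuclideanLin Mᵀ)) (by rw [hUr]; exact hM)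
  let P : EuclideanSpace ℝ (Fin n) →ₗ[ℝ] EuclideanSpace ℝ (Fin n) := W.starProjection
  let S : Matrix (Fin n) (Fin n) ℝ := toEuclideanLin.symm P
  have hSP : toEuclideanLin S = P := toEuclideanLin.apply_symm_apply P
  have hsymm : Sᵀ = S := by
    have h : S.IsHermitian := by
      rw [← isSymmetric_toEuclideanLin_iff, hSP]
      exact W.starProjection_isSymmetric
    rw [Matrix.IsHermitian, Matrix.conjTranspose_eq_transpose_of_trivial] at h
    exact h
  have happ : ∀ v : EuclideanSpace ℝ (Fin n), P v = WithLp.toLp 2 (S *ᵥ v.ofLp) := by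
    intro v
    rw [← hSP, toEuclideanLin_apply]
  have hidem : S * S = S := by
    apply toEuclideanLin.injective
    ext1 v
    rw [toEuclideanLin_apply, toEuclideanLin_apply, ← Matrix.mulVec_mulVec]
    have h1 := happ v
    have h2 := happ (P v)
    have h3 : P (P v) = P v := by
      exact Submodule.starProjection_eq_self_iff.2 (Submodule.starProjection_apply_mem W v)
    rw [h3, h1] at h2
    exact h2.symm
  have hrk : S.rank = k := by
    have : S.rank = Module.finrank ℝ (LinearMap.range (toEuclideanLin S)) := by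
      rw [toEuclideanLin_eq_toLin, ← Matrix.rank_eq_finrank_range_toLin]
    have hr : LinearMap.range P = W := W.range_starProjection
    rw [this, hSP, hr, hW]
  refine ⟨S, ⟨hsymm, hidem, hrk⟩, ?_⟩
  have key : (1 - S) * Mᵀ = 0 := by
    rw [sub_mul, one_mul, sub_eq_zero]
    apply toEuclideanLin.injective
    ext1 v
    rw [toEuclideanLin_apply (S * Mᵀ), ← Matrix.mulVec_mulVec]
    have h1 : P (toEuclideanLin Mᵀ v) = toEuclideanLin Mᵀ v :=
      Submodule.starProjection_eq_self_iff.2 (hUW ⟨v, rfl⟩)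
    rw [happ] at h1
    exact h1.symm
  have h2 := congrArg Matrix.transpose key
  rw [Matrix.transpose_mul, Matrix.transpose_transpose, Matrix.transpose_sub, hsymm,
    Matrix.transpose_one, Matrix.transpose_zero] at h2
  exact h2

end AC

theorem atomic_of_cert {n k : ℕ} {A Z : Matrix (Fin n) (Fin n) ℝ → Matrix (Fin n) (Fin n) ℝ}
    {F : Matrix (Fin n) (Fin n) ℝ → ℝ} (hG : gaussImage n k F = A '' Gr n k)
    (hk : k ≤ n)
    (hrank : ∀ T ∈ Gr n k, (A T).rank ≤ k)
    (hZ : ∀ T ∈ Gr n k, (1 - T) * Z T = Z T)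
    (hself : ∀ T ∈ Gr n k, trace (Z T * A T) = 0)
    {S₀ S₁ : Matrix (Fin n) (Fin n) ℝ} (hS₀ : S₀ ∈ Gr n k) (hS₁ : S₁ ∈ Gr n k)
    (hpos : ∀ T ∈ Gr n k, ∀ T' ∈ Gr n k, T' ≠ T → ¬ (T = S₀ ∧ T' = S₁) →
      0 < trace (Z T * A T'))
    (h01 : trace (Z S₀ * A S₁) = 0)
    (hne : A S₁ * (1 - S₀) ≠ 0) (hself0 : A S₀ * (1 - S₀) = 0) :
    AtomicCondition n k F := by
  -- the functionals
  let φ : Matrix (Fin n) (Fin n) ℝ → (Matrix (Fin n) (Fin n) ℝ →ₗ[ℝ] ℝ) := fun T =>
    (Matrix.traceLinearMap (Fin n) ℝ ℝ).comp (LinearMap.mulLeft ℝ (Z T))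
  have hφ : ∀ T M, φ T M = trace (Z T * M) := fun T M => rfl
  have hnn : ∀ T ∈ Gr n k, ∀ g ∈ A '' Gr n k, 0 ≤ φ T g := by
    rintro T hT _ ⟨T', hT', rfl⟩
    rw [hφ]
    by_cases h1 : T' = T
    · rw [h1, hself T hT]
    · by_cases h2 : T = S₀ ∧ T' = S₁
      · rw [h2.1, h2.2, h01]
      · exact (hpos T hT T' hT' h1 h2).le
  have hface : ∀ T ∈ Gr n k, T ≠ S₀ → ∀ M ∈ convexHull ℝ (A '' Gr n k), φ T M = 0 → M = A T := by
    intro T hT hTS M hM h0
    have h := AC.face_mem (φ T) (hnn T hT) hM h0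
    have hsub : A '' Gr n k ∩ {g | φ T g = 0} ⊆ {A T} := by
      rintro _ ⟨⟨T', hT', rfl⟩, h2⟩
      rw [Set.mem_singleton_iff]
      by_contra hc
      have h1 : T' ≠ T := fun h => hc (by rw [h])
      have := hpos T hT T' hT' h1 (fun h => hTS h.1)
      simp only [Set.mem_ofPred_eq] at h2
      rw [hφ] at h2
      linarith
    have h3 := convexHull_mono hsub h
    rwa [convexHull_singleton, Set.mem_singleton_iff] at h3
  have hface0 : ∀ M ∈ convexHull ℝ (A '' Gr n k), φ S₀ M = 0 →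
      ∃ s : ℝ, 0 ≤ s ∧ M = (1 - s) • A S₀ + s • A S₁ := by
    intro M hM h0
    have h := AC.face_mem (φ S₀) (hnn S₀ hS₀) hM h0
    have hsub : A '' Gr n k ∩ {g | φ S₀ g = 0} ⊆ {A S₀, A S₁} := by
      rintro _ ⟨⟨T', hT', rfl⟩, h2⟩
      rw [Set.mem_insert_iff, Set.mem_singleton_iff]
      by_contra hc
      push Not at hc
      have h1 : T' ≠ S₀ := fun h => hc.1 (by rw [h])
      have := hpos S₀ hS₀ T' hT' h1 (fun h => hc.2 (by rw [h.2]))
      simp only [Set.mem_ofPred_eq] at h2
      rw [hφ] at h2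
      linarith
    have h3 := convexHull_mono hsub h
    rw [convexHull_pair] at h3
    obtain ⟨a, b, ha, hb, hab, rfl⟩ := h3
    exact ⟨b, hb, by rw [← hab]; simp⟩
  have hkill : ∀ s : ℝ, ((1 - s) • A S₀ + s • A S₁) * (1 - S₀) = s • (A S₁ * (1 - S₀)) := by
    intro s
    rw [add_mul, Matrix.smul_mul, Matrix.smul_mul, hself0, smul_zero, zero_add]
  have hinj : ∀ s : ℝ, s • (A S₁ * (1 - S₀)) = 0 → s = 0 := by
    intro s hs
    rcases smul_eq_zero.1 hs with h | h
    · exact h
    · exact absurd h hne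
  -- extreme points
  have hext : ∀ T ∈ Gr n k, A T ∈ Set.extremePoints ℝ (convexHull ℝ (A '' Gr n k)) := by
    intro T hT
    rw [mem_extremePoints]
    refine ⟨subset_convexHull ℝ _ ⟨T, hT, rfl⟩, ?_⟩
    intro x hx y hy hxy
    have hCnn : ∀ M ∈ convexHull ℝ (A '' Gr n k), 0 ≤ φ T M := by
      have hconv : Convex ℝ {M | 0 ≤ φ T M} := convex_halfSpace_ge (φ T).isLinear 0
      exact fun M hM => convexHull_min (hnn T hT) hconv hM
    obtain ⟨a, b, ha, hb, hab, hM⟩ := hxy
    have h0 : a * φ T x + b * φ T y = 0 := by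
      have := congrArg (φ T) hM
      rw [map_add, map_smul, map_smul, smul_eq_mul, smul_eq_mul, hφ T (A T), hself T hT] at this
      exact this
    have hx0 : φ T x = 0 := by
      have h1 := hCnn x hx
      have h2 := hCnn y hy
      nlinarith [mul_nonneg ha.le h1, mul_nonneg hb.le h2]
    have hy0 : φ T y = 0 := by
      rw [hx0, mul_zero, zero_add] at h0
      rcases mul_eq_zero.1 h0 with h | h
      · exact absurd h hb.ne'
      · exact h
    by_cases hTS : T = S₀
    · subst hTS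
      obtain ⟨s, hs, rfl⟩ := hface0 x hx hx0
      obtain ⟨s', hs', rfl⟩ := hface0 y hy hy0
      have h2 := congrArg (fun M => M * (1 - T)) hM
      simp only [add_mul, Matrix.smul_mul, hself0, smul_zero, zero_add, smul_smul] at h2
      rw [← add_smul] at h2
      have h3 := hinj _ h2
      have h4 : s = 0 := by nlinarith [mul_nonneg ha.le hs, mul_nonneg hb.le hs']
      have h5 : s' = 0 := by nlinarith [mul_nonneg ha.le hs, mul_nonneg hb.le hs']
      subst h4 h5
      simp
    · exact ⟨hface T hT hTS x hx hx0, hface T hT hTS y hy hy0⟩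
  rw [AtomicCondition, hG]
  refine ⟨?_, ?_⟩
  · refine Set.Subset.antisymm ?_ ?_
    · rintro M ⟨hM, hr⟩
      obtain ⟨S, hS, hMS⟩ := AC.exists_Gr hk M hr
      have h0 : φ S M = 0 := by
        rw [hφ, ← hZ S hS, mul_assoc, Matrix.trace_mul_comm, mul_assoc, hMS, mul_zero,
          Matrix.trace_zero]
      by_cases hSS : S = S₀
      · subst hSS
        obtain ⟨s, hs, rfl⟩ := hface0 M hM h0
        rw [hkill] at hMS
        have := hinj s hMS
        subst this
        exact ⟨S, hS, by simp⟩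
      · exact ⟨S, hS, (hface S hS hSS M hM h0).symm⟩
    · rintro _ ⟨T, hT, rfl⟩
      exact ⟨subset_convexHull ℝ _ ⟨T, hT, rfl⟩, hrank T hT⟩
  · refine Set.Subset.antisymm ?_ extremePoints_convexHull_subset
    rintro _ ⟨T, hT, rfl⟩
    exact hext T hT

end EC
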